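import Mathlib

set_option autoImplicit false

/-! An abstract criterion for a principal ideal `x k R` not to be a product of primes. -/

namespace Pool.Agent.PriRing

section Criterion

variable {R : Type*} [Ring R]

/-- product of additive submonoids -/
def prodAdd (P J : AddSubmonoid R) : AddSubmonoid R :=
  AddSubmonoid.closure {x : R | ∃ a ∈ P, ∃ b ∈ J, x = a * b}

/-- two-sidedness -/
def TwoSided (P : AddSubmonoid R) : Prop := ∀ x r : R, x ∈ P → r * x ∈ P ∧ x * r ∈ P

theorem mul_mem_prodAdd {P J : AddSubmonoid R} {a b : R} (ha : a ∈ P) (hb : b ∈ J) :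
    a * b ∈ prodAdd P J := AddSubmonoid.subset_closure ⟨a, ha, b, hb, rfl⟩

theorem prodAdd_le {P J T : AddSubmonoid R} (h : ∀ a ∈ P, ∀ b ∈ J, a * b ∈ T) :
    prodAdd P J ≤ T := by
  unfold prodAdd
  rw [AddSubmonoid.closure_le]
  rintro _ ⟨a, ha, b, hb, rfl⟩
  exact h a ha b hb

theorem twoSided_prodAdd {P J : AddSubmonoid R} (hP : TwoSided P) (hJ : TwoSided J) :
    TwoSided (prodAdd P J) := by
  intro x r hx
  unfold prodAdd at hx
  refine AddSubmonoid.closure_induction
    (motive := fun y _ => r * y ∈ prodAdd P J ∧ y * r ∈ prodAdd P J) ?_ ?_ ?_ hx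
  · rintro _ ⟨a, ha, b, hb, rfl⟩
    constructor
    · rw [← mul_assoc]; exact mul_mem_prodAdd (hP a r ha).1 hb
    · rw [mul_assoc]; exact mul_mem_prodAdd ha (hJ b r hb).2
  · simp only [mul_zero, zero_mul]
    exact ⟨AddSubmonoid.zero_mem _, AddSubmonoid.zero_mem _⟩
  · rintro a b _ _ ⟨h1, h2⟩ ⟨h3, h4⟩
    rw [mul_add, add_mul]
    exact ⟨AddSubmonoid.add_mem _ h1 h3, AddSubmonoid.add_mem _ h2 h4⟩

theorem twoSided_foldr (L : List (AddSubmonoid R)) (hL : ∀ P ∈ L, TwoSided P) :
    TwoSided (L.foldr prodAdd ⊤) := by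
  induction L with
  | nil => intro x r _; exact ⟨AddSubmonoid.mem_top _, AddSubmonoid.mem_top _⟩
  | cons P L ih =>
    simp only [List.foldr_cons]
    exact twoSided_prodAdd (hL P (by simp)) (ih (fun Q hQ => hL Q (by simp [hQ])))

theorem foldr_le (L : List (AddSubmonoid R)) (hL : ∀ P ∈ L, TwoSided P) :
    ∀ P ∈ L, L.foldr prodAdd ⊤ ≤ P := by
  induction L with
  | nil => intro P hP; simp at hP
  | cons Q L ih =>
    intro P hP
    simp only [List.foldr_cons]
    rcases List.mem_cons.1 hP with h | h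
    · subst h
      exact prodAdd_le (fun a ha b _ => (hL P (by simp) a b ha).2)
    · refine le_trans (prodAdd_le ?_) (ih (fun Q hQ => hL Q (by simp [hQ])) P h)
      intro a _ b hb
      exact (twoSided_foldr L (fun Q hQ => hL Q (by simp [hQ])) b a hb).1

/-- the additive submonoid `x J` -/
def lmul (x : R) (J : AddSubmonoid R) : AddSubmonoid R where
  carrier := {y | ∃ j ∈ J, y = x * j}
  add_mem' := by
    rintro a b ⟨j, hj, rfl⟩ ⟨i, hi, rfl⟩
    exact ⟨j + i, J.add_mem hj hi, by rw [mul_add]⟩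
  zero_mem' := ⟨0, J.zero_mem, by simp⟩

theorem mem_lmul {x y : R} {J : AddSubmonoid R} : y ∈ lmul x J ↔ ∃ j ∈ J, y = x * j := Iff.rfl

theorem foldr_cases (x : R) (ha : ∀ r : R, ∃ s, r * x = x * s)
    (hd : ∀ q : R, (¬ ∃ s, q = x * s) → ∃ f r, x = (q - x * f) * x * r)
    (L : List (AddSubmonoid R)) (hL : ∀ P ∈ L, TwoSided P) (hx : ∀ P ∈ L, x ∈ P) :
    x ∈ L.foldr prodAdd ⊤ ∨
      ∃ J : AddSubmonoid R, TwoSided J ∧ L.foldr prodAdd ⊤ = lmul x J := by
  induction L with
  | nil => left; exact AddSubmonoid.mem_top _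
  | cons P L ih =>
    have hL' : ∀ Q ∈ L, TwoSided Q := fun Q hQ => hL Q (by simp [hQ])
    have hx' : ∀ Q ∈ L, x ∈ Q := fun Q hQ => hx Q (by simp [hQ])
    have hts := twoSided_foldr L hL'
    have hxP : x ∈ P := hx P (by simp)
    have hP : TwoSided P := hL P (by simp)
    simp only [List.foldr_cons]
    by_cases hsub : ∀ q ∈ P, ∃ s, q = x * s
    · right
      refine ⟨L.foldr prodAdd ⊤, hts, le_antisymm ?_ ?_⟩
      · apply prodAdd_le
        intro a haP b hb
        obtain ⟨s, rfl⟩ := hsub a haP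
        exact ⟨s * b, (hts b s hb).1, by rw [mul_assoc]⟩
      · rintro y ⟨j, hj, rfl⟩
        exact mul_mem_prodAdd hxP hj
    · push Not at hsub
      obtain ⟨q, hq, hqs⟩ := hsub
      obtain ⟨f, r, hfr⟩ := hd q (by push Not; exact hqs)
      have hq' : q - x * f ∈ P := by
        have : q - x * f = q + x * (-f) := by rw [mul_neg, sub_eq_add_neg]
        rw [this]
        exact P.add_mem hq (hP x (-f) hxP).2
      rcases ih hL' hx' with h | ⟨J, hJ, hJe⟩
      · left
        have := mul_mem_prodAdd hq' (hts x r h).2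
        rw [← mul_assoc, ← hfr] at this
        exact this
      · right
        refine ⟨J, hJ, le_antisymm ?_ ?_⟩
        · apply prodAdd_le
          intro p _ b hb
          rw [hJe] at hb
          obtain ⟨j, hj, rfl⟩ := hb
          obtain ⟨s, hs⟩ := ha p
          refine ⟨s * j, (hJ j s hj).1, ?_⟩
          rw [← mul_assoc, hs, mul_assoc]
        · rintro y ⟨j, hj, rfl⟩
          have h1 : x * (r * j) ∈ L.foldr prodAdd ⊤ := by
            rw [hJe]; exact ⟨r * j, (hJ j r hj).1, rfl⟩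
          have h2 := mul_mem_prodAdd hq' h1
          have h3 : (q - x * f) * (x * (r * j)) = x * j := by
            calc (q - x * f) * (x * (r * j)) = ((q - x * f) * x * r) * j := by
                  simp only [mul_assoc]
              _ = x * j := by rw [← hfr]
          rw [h3] at h2
          exact h2

/-- The criterion: under these hypotheses the two-sided ideal `x k R` is not a finite product
of prime ideals. -/
theorem not_product (x k : R) (hcancel : ∀ a b : R, x * a = x * b → a = b)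
    (ha : ∀ r : R, ∃ s, r * x = x * s)
    (hc : ¬ ∃ s, x = x * k * s)
    (hd : ∀ q : R, (¬ ∃ s, q = x * s) → ∃ f r, x = (q - x * f) * x * r)
    (he : ∃ s, x * x = x * k * s)
    (hf : ∃ l, ¬ ∃ s, l * k = k * s)
    (I : AddSubmonoid R) (hI : ∀ y, y ∈ I ↔ ∃ s, y = x * k * s) :
    ¬ ∃ L : List (AddSubmonoid R),
          (∀ P ∈ L, (∀ x r : R, x ∈ P → r * x ∈ P ∧ x * r ∈ P) ∧ (1 : R) ∉ P ∧
              ∀ a b : R, (∀ r : R, a * r * b ∈ P) → a ∈ P ∨ b ∈ P) ∧
          L.foldr (fun P J => AddSubmonoid.closure {x : R | ∃ a ∈ P, ∃ b ∈ J, x = a * b}) ⊤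
            = I := by
  rintro ⟨L, hL, hprod⟩
  change L.foldr prodAdd ⊤ = I at hprod
  have hL' : ∀ P ∈ L, TwoSided P := fun P hP => (hL P hP).1
  have hx : ∀ P ∈ L, x ∈ P := by
    intro P hP
    have hle : I ≤ P := by rw [← hprod]; exact foldr_le L hL' P hP
    have hor : x ∈ P ∨ x ∈ P := by
      apply (hL P hP).2.2 x x
      intro r
      obtain ⟨s, hs⟩ := ha r
      obtain ⟨t, ht⟩ := he
      apply hle
      rw [hI]
      refine ⟨t * s, ?_⟩
      rw [mul_assoc x r x, hs, ← mul_assoc, ht, mul_assoc]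
    tauto
  rcases foldr_cases x ha hd L hL' hx with h | ⟨J, hJ, hJe⟩
  · rw [hprod, hI] at h
    exact hc h
  · obtain ⟨l, hl⟩ := hf
    apply hl
    have h1 : x * k ∈ I := (hI _).2 ⟨1, by rw [mul_one]⟩
    rw [← hprod, hJe] at h1
    obtain ⟨j, hj, hj'⟩ := h1
    have hkj := hcancel _ _ hj'
    subst hkj
    have h2 : x * (l * k) ∈ I := by
      rw [← hprod, hJe]
      exact ⟨l * k, (hJ k l hj).1, rfl⟩
    rw [hI] at h2
    obtain ⟨s, hs⟩ := h2
    refine ⟨s, hcancel _ _ ?_⟩
    rw [hs, mul_assoc]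

end Criterion

end Pool.Agent.PriRing
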