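import Mathlib

set_option autoImplicit false

/-! General facts on skew polynomial rings `D[x; phi]` with coefficients on the left. -/

namespace Pool.Agent.PriRing

open Multiplicative SkewPolynomial

section Skew

variable {D : Type*} [Ring D]

/-- every nonzero skew polynomial has a degree -/
theorem exists_deg (p : SkewPolynomial D) (hp : p ≠ 0) :
    ∃ m, p.coeff m ≠ 0 ∧ ∀ i, m < i → p.coeff i = 0 := by
  have hne : p.support.Nonempty := by
    rw [Finset.nonempty_iff_ne_empty]
    simpa using hp
  refine ⟨p.support.max' hne, ?_, ?_⟩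
  · exact mem_support_iff.1 (p.support.max'_mem hne)
  · intro i hi
    by_contra h
    exact absurd (p.support.le_max' i (mem_support_iff.2 h)) (by omega)

theorem exists_bound (p : SkewPolynomial D) : ∃ m, ∀ i, m < i → p.coeff i = 0 := by
  by_cases hp : p = 0
  · exact ⟨0, fun i _ => by rw [hp]; simp⟩
  · obtain ⟨m, _, hm⟩ := exists_deg p hp
    exact ⟨m, hm⟩

variable [MulSemiringAction (Multiplicative ℕ) D]

/-- Coefficient formula for a product of skew polynomials. -/
theorem coeff_mul' (p q : SkewPolynomial D) (n : ℕ) :
    (p * q).coeff n =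
      ∑ ij ∈ Finset.HasAntidiagonal.antidiagonal n,
        p.coeff ij.1 * (ofAdd ij.1) • (q.coeff ij.2) := by
  classical
  have hinj : Function.Injective (fun ij : ℕ × ℕ => (ofAdd ij.1, ofAdd ij.2)) := by
    intro a b hab
    have h1 := congrArg Prod.fst hab
    have h2 := congrArg Prod.snd hab
    exact Prod.ext (ofAdd.injective h1) (ofAdd.injective h2)
  have h := SkewMonoidAlgebra.coeff_mul_antidiagonal_of_finset p q (ofAdd n)
    ((Finset.HasAntidiagonal.antidiagonal n).map
      ⟨fun ij : ℕ × ℕ => (ofAdd ij.1, ofAdd ij.2), hinj⟩) (by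
      intro p
      constructor
      · intro hp
        rw [Finset.mem_map] at hp
        obtain ⟨⟨i, j⟩, hij, rfl⟩ := hp
        rw [Finset.HasAntidiagonal.mem_antidiagonal] at hij
        rw [← hij]
        rfl
      · intro hp
        rw [Finset.mem_map]
        refine ⟨(toAdd p.1, toAdd p.2), ?_, rfl⟩
        rw [Finset.HasAntidiagonal.mem_antidiagonal]
        have := congrArg toAdd hp
        exact this)
  rw [Finset.sum_map] at h
  exact h

/-- leading coefficient of a product -/
theorem coeff_mul_top (p q : SkewPolynomial D) (m n : ℕ)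
    (hp : ∀ i, m < i → p.coeff i = 0) (hq : ∀ j, n < j → q.coeff j = 0) :
    (p * q).coeff (m + n) = p.coeff m * (ofAdd m) • (q.coeff n) := by
  rw [coeff_mul']
  rw [Finset.sum_eq_single (m, n)]
  · rintro ⟨i, j⟩ hij hne
    rw [Finset.HasAntidiagonal.mem_antidiagonal] at hij
    simp only at hij ⊢
    rcases lt_trichotomy i m with h | h | h
    · rw [hq j (by omega)]; simp
    · exfalso; apply hne; subst h; congr; omega
    · rw [hp i h]; simp
  · intro h
    exact absurd (Finset.HasAntidiagonal.mem_antidiagonal.2 (rfl : (m, n).1 + (m, n).2 = m + n)) h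

theorem coeff_mul_gt (p q : SkewPolynomial D) (m n k : ℕ)
    (hp : ∀ i, m < i → p.coeff i = 0) (hq : ∀ j, n < j → q.coeff j = 0) (hk : m + n < k) :
    (p * q).coeff k = 0 := by
  rw [coeff_mul']
  apply Finset.sum_eq_zero
  rintro ⟨i, j⟩ hij
  rw [Finset.HasAntidiagonal.mem_antidiagonal] at hij
  simp only at hij ⊢
  rcases lt_or_ge m i with h | h
  · rw [hp i h]; simp
  · rw [hq j (by omega)]; simp

/-- `D[x; phi]` is a domain when `D` is and the twist is injective. -/
theorem noZeroDivisors [NoZeroDivisors D]
    (hinj : ∀ (n : ℕ) (d : D), (ofAdd n) • d = 0 → d = 0) :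
    NoZeroDivisors (SkewPolynomial D) where
  eq_zero_or_eq_zero_of_mul_eq_zero := by
    intro p q hpq
    by_contra hcon
    push Not at hcon
    obtain ⟨m, hm, hm'⟩ := exists_deg p hcon.1
    obtain ⟨n, hn, hn'⟩ := exists_deg q hcon.2
    have h := coeff_mul_top p q m n hm' hn'
    rw [hpq] at h
    simp only [SkewPolynomial.coeff_zero] at h
    rcases mul_eq_zero.1 h.symm with h1 | h1
    · exact hm h1
    · exact hn (hinj _ _ h1)

/-- Jategaonkar: if `D` is a principal left ideal domain and the twist maps nonzero elements
to units, then `D[x; phi]` is a principal left ideal ring. -/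
theorem isPrincipal [IsPrincipalIdealRing D]
    (hunit : ∀ (n : ℕ) (d : D), d ≠ 0 → n ≠ 0 → IsUnit ((ofAdd n) • d)) :
    IsPrincipalIdealRing (SkewPolynomial D) where
  principal := by
    intro J
    by_cases hJ : ∃ f ∈ J, f ≠ 0
    swap
    · push Not at hJ
      refine ⟨0, ?_⟩
      rw [(Submodule.eq_bot_iff J).2 hJ]
      simp
    classical
    -- minimal degree
    have hex : ∃ n, ∃ f ∈ J, f.coeff n ≠ 0 ∧ ∀ i, n < i → f.coeff i = 0 := by
      obtain ⟨f, hf, hf0⟩ := hJ
      obtain ⟨n, h1, h2⟩ := exists_deg f hf0
      exact ⟨n, f, hf, h1, h2⟩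
    let n := Nat.find hex
    have hn : ∃ f ∈ J, f.coeff n ≠ 0 ∧ ∀ i, n < i → f.coeff i = 0 := Nat.find_spec hex
    have hmin : ∀ m, m < n → ∀ f ∈ J, (∀ i, m < i → f.coeff i = 0) → f.coeff m = 0 := by
      intro m hm f hf hfm
      by_contra hcon
      exact Nat.find_min hex hm ⟨f, hf, hcon, hfm⟩
    have hzero : ∀ f ∈ J, (∀ i, n ≤ i → f.coeff i = 0) → f = 0 := by
      intro f hf hfn
      by_contra hcon
      obtain ⟨m, h1, h2⟩ := exists_deg f hcon
      have hmn : m < n := by
        by_contra hh
        exact h1 (hfn m (by omega))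
      exact h1 (hmin m hmn f hf h2)
    -- the ideal of leading coefficients in degree n
    let K : Ideal D :=
      { carrier := {d | ∃ f ∈ J, (∀ i, n < i → f.coeff i = 0) ∧ f.coeff n = d}
        add_mem' := by
          rintro a b ⟨f, hf, hf1, hf2⟩ ⟨g, hg, hg1, hg2⟩
          refine ⟨f + g, J.add_mem hf hg, ?_, ?_⟩
          · intro i hi
            rw [SkewPolynomial.coeff_add, hf1 i hi, hg1 i hi, add_zero]
          · rw [SkewPolynomial.coeff_add, hf2, hg2]
        zero_mem' := ⟨0, J.zero_mem, by simp, by simp⟩
        smul_mem' := by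
          rintro c a ⟨f, hf, hf1, hf2⟩
          have hC : ∀ i, 0 < i → (C c : SkewPolynomial D).coeff i = 0 := by
            intro i hi
            rw [coeff_C, if_neg (by omega)]
          refine ⟨C c * f, J.mul_mem_left _ hf, ?_, ?_⟩
          · intro i hi
            exact coeff_mul_gt _ _ 0 n i hC hf1 (by omega)
          · have := coeff_mul_top (C c) f 0 n hC hf1
            rw [zero_add] at this
            rw [this, hf2]
            simp }
    obtain ⟨d0, hd0⟩ := (IsPrincipalIdealRing.principal K).principal
    have hd0K : d0 ∈ K := by rw [hd0]; exact Submodule.mem_span_singleton_self d0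
    obtain ⟨f, hfJ, hf1, hf2⟩ := hd0K
    have hd0ne : d0 ≠ 0 := by
      rintro rfl
      obtain ⟨g, hg, hg1, hg2⟩ := hn
      have hgK : g.coeff n ∈ K := ⟨g, hg, hg2, rfl⟩
      rw [hd0] at hgK
      simp at hgK
      exact hg1 hgK
    refine ⟨f, le_antisymm ?_ ?_⟩
    swap
    · rw [Submodule.span_singleton_le_iff_mem]; exact hfJ
    -- strong induction on the degree bound
    have key : ∀ N : ℕ, ∀ g ∈ J, (∀ i, N < i → g.coeff i = 0) →
        g ∈ Submodule.span (SkewPolynomial D) {f} := by
      intro N
      induction N with
      | zero =>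
        intro g hg hgN
        rcases Nat.eq_zero_or_pos n with hn0 | hnpos
        · have hgK : g.coeff n ∈ K := ⟨g, hg, by rw [hn0]; exact hgN, rfl⟩
          rw [hd0, Submodule.mem_span_singleton] at hgK
          obtain ⟨e, he⟩ := hgK
          have hC : ∀ i, 0 < i → (C e : SkewPolynomial D).coeff i = 0 := by
            intro i hi
            rw [coeff_C, if_neg (by omega)]
          have hz : g - C e * f = 0 := by
            apply hzero _ (J.sub_mem hg (J.mul_mem_left _ hfJ))
            intro i hi
            rw [SkewPolynomial.coeff_sub]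
            rcases Nat.eq_or_lt_of_le hi with h | h
            · subst h
              have := coeff_mul_top (C e) f 0 n hC hf1
              rw [zero_add] at this
              rw [this, hf2, ← he]
              simp
            · rw [coeff_mul_gt _ _ 0 n i hC hf1 (by omega), hgN i (by omega), sub_zero]
          rw [sub_eq_zero] at hz
          rw [hz]
          exact Submodule.smul_mem _ _ (Submodule.mem_span_singleton_self f)
        · have : g = 0 := hzero g hg (fun i hi => hgN i (by omega))
          rw [this]; exact Submodule.zero_mem _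
      | succ N ih =>
        intro g hg hgN
        -- find s with deg (g - s f) ≤ N
        suffices hs : ∃ s : SkewPolynomial D, ∀ i, N < i → (g - s * f).coeff i = 0 by
          obtain ⟨s, hs⟩ := hs
          have h1 := ih (g - s * f) (J.sub_mem hg (J.mul_mem_left _ hfJ)) hs
          have h2 : g = (g - s * f) + s • f := by simp
          rw [h2]
          exact Submodule.add_mem _ h1
            (Submodule.smul_mem _ _ (Submodule.mem_span_singleton_self f))
        rcases lt_trichotomy (N + 1) n with h | h | h
        · refine ⟨0, ?_⟩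
          have : g = 0 := hzero g hg (fun i hi => hgN i (by omega))
          intro i _
          rw [this]; simp
        · have hgK : g.coeff n ∈ K := ⟨g, hg, by rw [← h]; exact hgN, rfl⟩
          rw [hd0, Submodule.mem_span_singleton] at hgK
          obtain ⟨e, he⟩ := hgK
          have hC : ∀ i, 0 < i → (C e : SkewPolynomial D).coeff i = 0 := by
            intro i hi
            rw [coeff_C, if_neg (by omega)]
          refine ⟨C e, ?_⟩
          intro i hi
          rw [SkewPolynomial.coeff_sub]
          rcases Nat.eq_or_lt_of_le (show n ≤ i by omega) with h' | h'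
          · subst h'
            have := coeff_mul_top (C e) f 0 n hC hf1
            rw [zero_add] at this
            rw [this, hf2, ← he]
            simp
          · rw [coeff_mul_gt _ _ 0 n i hC hf1 (by omega), hgN i (by omega), sub_zero]
        · -- N + 1 > n : use x^(N+1-n)
          obtain ⟨k, hk⟩ : ∃ k, N + 1 = k + n := ⟨N + 1 - n, by omega⟩
          have hk0 : k ≠ 0 := by omega
          have hu := hunit k d0 hd0ne hk0
          obtain ⟨u, hu⟩ := hu
          have hM : ∀ i, k < i →
              (monomial k (g.coeff (N + 1) * (↑u⁻¹ : D)) : SkewPolynomial D).coeff i = 0 := by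
            intro i hi
            rw [coeff_monomial, if_neg (by omega)]
          refine ⟨monomial k (g.coeff (N + 1) * (↑u⁻¹ : D)), ?_⟩
          intro i hi
          rw [SkewPolynomial.coeff_sub]
          rcases Nat.eq_or_lt_of_le (show N + 1 ≤ i by omega) with h' | h'
          · subst h'
            have := coeff_mul_top (monomial k (g.coeff (N + 1) * (↑u⁻¹ : D))) f k n hM hf1
            rw [← hk] at this
            rw [this, hf2, coeff_monomial, if_pos rfl, ← hu, mul_assoc]
            simp
          · rw [coeff_mul_gt _ _ k n i hM hf1 (by omega), hgN i (by omega), sub_zero]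
    intro g hg
    obtain ⟨N, hN⟩ := exists_bound g
    exact key N g hg hN

end Skew

end Pool.Agent.PriRing
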