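import Mathlib
import Pool.Agent.PriRing.Skew
import Pool.Agent.PriRing.Criterion

set_option autoImplicit false

/-! The counterexample ring built from a division ring with an endomorphism. -/

namespace Pool.Agent.PriRing

open Multiplicative

/-- the action of `Multiplicative ℕ` by powers of a ring endomorphism -/
@[reducible] noncomputable def actionOf {D : Type*} [Ring D] (f : D →+* D) :
    MulSemiringAction (Multiplicative ℕ) D :=
  MulSemiringAction.compHom D (powersHom (D →+* D) f)

theorem actionOf_smul {D : Type*} [Ring D] (f : D →+* D) (n : ℕ) (d : D) :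
    letI := actionOf f
    (ofAdd n) • d = (f^[n]) d := by
  letI := actionOf f
  change (powersHom (D →+* D) f (ofAdd n)) d = _
  rw [powersHom_apply, toAdd_ofAdd, RingHom.coe_pow]

section Poly

variable {L : Type*} [DivisionRing L]

/-- left Euclidean division in `L[X]` for a division ring `L` -/
theorem poly_euclid (g : Polynomial L) (hg : g ≠ 0) (f : Polynomial L) :
    ∃ q : Polynomial L, (f - q * g).degree < g.degree := by
  classical
  induction hn : f.natDegree using Nat.strong_induction_on generalizing f with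
  | _ n ih =>
    by_cases hfg : f.degree < g.degree
    · exact ⟨0, by simpa using hfg⟩
    push Not at hfg
    have hf : f ≠ 0 := by
      rintro rfl
      rw [Polynomial.degree_zero, le_bot_iff, Polynomial.degree_eq_bot] at hfg
      exact hg hfg
    have hnd : g.natDegree ≤ f.natDegree := Polynomial.natDegree_le_natDegree hfg
    let q0 : Polynomial L :=
      Polynomial.monomial (f.natDegree - g.natDegree) (f.leadingCoeff * (g.leadingCoeff)⁻¹)
    have hlg : g.leadingCoeff ≠ 0 := by simpa using hg
    have hlf : f.leadingCoeff ≠ 0 := by simpa using hf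
    have hq0 : q0 ≠ 0 := by
      simp only [q0, ne_eq, Polynomial.monomial_eq_zero_iff, mul_eq_zero, inv_eq_zero, not_or]
      exact ⟨hlf, hlg⟩
    have hq0d : q0.natDegree = f.natDegree - g.natDegree := by
      apply Polynomial.natDegree_monomial_eq
      exact mul_ne_zero hlf (inv_ne_zero hlg)
    have hq0l : q0.leadingCoeff = f.leadingCoeff * (g.leadingCoeff)⁻¹ :=
      Polynomial.leadingCoeff_monomial _ _
    have hprodne : q0 * g ≠ 0 := mul_ne_zero hq0 hg
    have hd1 : (q0 * g).natDegree = f.natDegree := by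
      rw [Polynomial.natDegree_mul hq0 hg, hq0d]; omega
    have hdeg : f.degree = (q0 * g).degree := by
      rw [Polynomial.degree_eq_natDegree hf, Polynomial.degree_eq_natDegree hprodne, hd1]
    have hlead : f.leadingCoeff = (q0 * g).leadingCoeff := by
      rw [Polynomial.leadingCoeff_mul, hq0l, mul_assoc, inv_mul_cancel₀ hlg, mul_one]
    have hlt := Polynomial.degree_sub_lt_left hdeg hf hlead
    by_cases hz : f - q0 * g = 0
    · refine ⟨q0, ?_⟩
      rw [hz, Polynomial.degree_zero]
      exact bot_lt_iff_ne_bot.2 (by rw [Ne, Polynomial.degree_eq_bot]; exact hg)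
    have hlt' : (f - q0 * g).natDegree < n := by
      rw [← hn]
      exact Polynomial.natDegree_lt_natDegree hz hlt
    obtain ⟨q1, hq1⟩ := ih _ hlt' (f - q0 * g) rfl
    refine ⟨q0 + q1, ?_⟩
    have : f - (q0 + q1) * g = f - q0 * g - q1 * g := by rw [add_mul]; abel
    rw [this]; exact hq1

/-- `L[X]` has all left ideals principal -/
theorem poly_pir : IsPrincipalIdealRing (Polynomial L) where
  principal := by
    intro J
    classical
    by_cases hJ : ∃ f ∈ J, f ≠ 0
    swap
    · push Not at hJ
      refine ⟨0, ?_⟩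
      rw [(Submodule.eq_bot_iff J).2 hJ]
      simp
    have hex : ∃ n, ∃ f ∈ J, f ≠ 0 ∧ f.natDegree = n := by
      obtain ⟨f, hf, hf0⟩ := hJ
      exact ⟨_, f, hf, hf0, rfl⟩
    obtain ⟨g, hg, hg0, hgn⟩ := Nat.find_spec hex
    refine ⟨g, le_antisymm ?_ ?_⟩
    · intro f hf
      obtain ⟨q, hq⟩ := poly_euclid g hg0 f
      have hmem : f - q * g ∈ J := J.sub_mem hf (J.mul_mem_left _ hg)
      have hz : f - q * g = 0 := by
        by_contra hne
        refine Nat.find_min hex (m := (f - q * g).natDegree) ?_ ⟨_, hmem, hne, rfl⟩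
        rw [← hgn]
        exact Polynomial.natDegree_lt_natDegree hne hq
      rw [sub_eq_zero] at hz
      rw [hz]
      exact Submodule.smul_mem _ _ (Submodule.mem_span_singleton_self g)
    · rw [Submodule.span_singleton_le_iff_mem]; exact hg

end Poly

section SkewDecomp

variable {D : Type*} [Ring D] [MulSemiringAction (Multiplicative ℕ) D]

theorem decomp (p : SkewPolynomial D) :
    ∃ f : SkewPolynomial D, p = SkewPolynomial.C (p.coeff 0) + f * SkewPolynomial.X := by
  have : ∃ (a : D) (f : SkewPolynomial D), p = SkewPolynomial.C a + f * SkewPolynomial.X := by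
    induction p using SkewPolynomial.induction with
    | h0 => exact ⟨0, 0, by simp⟩
    | ha n r q _ _ ih =>
      obtain ⟨a, f, hf⟩ := ih
      rcases n with _ | n
      · refine ⟨r + a, f, ?_⟩
        rw [hf, SkewPolynomial.monomial_zero_left, map_add, add_assoc]
      · refine ⟨a, SkewPolynomial.monomial n r + f, ?_⟩
        rw [add_mul, SkewPolynomial.monomial_mul_X]
        conv_lhs => rw [hf]
        abel
  obtain ⟨a, f, hf⟩ := this
  refine ⟨f, ?_⟩
  have h0 : p.coeff 0 = a := by
    rw [hf, SkewPolynomial.coeff_add, SkewPolynomial.coeff_C_zero, coeff_mul']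
    simp
  rw [h0]; exact hf

theorem X_mul_C (a : D) :
    (SkewPolynomial.X : SkewPolynomial D) * SkewPolynomial.C a =
      SkewPolynomial.C ((ofAdd 1) • a) * SkewPolynomial.X := by
  rw [← SkewPolynomial.monomial_zero_left, SkewPolynomial.X_mul_monomial,
    ← SkewPolynomial.monomial_zero_left, SkewPolynomial.monomial_mul_X]
  rfl

theorem X_mul_comm (p : SkewPolynomial D) :
    ∃ q : SkewPolynomial D, (SkewPolynomial.X : SkewPolynomial D) * p = q * SkewPolynomial.X :=
  ⟨_, SkewPolynomial.X_mul⟩

end SkewDecomp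

section Main

variable {L : Type} [DivisionRing L] (s0 : L →+* L) (c : L) (hcomm : ∀ l, Commute (s0 l) c)

/-- evaluation `∑ l_i t^i ↦ ∑ s0 (l_i) c^i` -/
noncomputable def evalHom : Polynomial L →+* L := Polynomial.eval₂RingHom' s0 c hcomm

/-- The main construction. -/
theorem main_construction (hinj : Function.Injective (evalHom s0 c hcomm))
    (hnc : ∃ l : L, l * c ≠ c * l) :
    ¬ (∀ (R : Type) [Ring R], Nontrivial R →
      (∀ a b : R, (∀ r : R, a * r * b = 0) → a = 0 ∨ b = 0) →
      (∀ I : AddSubmonoid R, (∀ x r : R, x ∈ I → x * r ∈ I) →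
          ∃ a : R, ∀ x : R, x ∈ I ↔ ∃ r : R, x = a * r) →
      ∀ I : AddSubmonoid R, (∀ x r : R, x ∈ I → r * x ∈ I ∧ x * r ∈ I) →
        ∃ L : List (AddSubmonoid R),
          (∀ P ∈ L, (∀ x r : R, x ∈ P → r * x ∈ P ∧ x * r ∈ P) ∧ (1 : R) ∉ P ∧
              ∀ a b : R, (∀ r : R, a * r * b ∈ P) → a ∈ P ∨ b ∈ P) ∧
          L.foldr (fun P J => AddSubmonoid.closure {x : R | ∃ a ∈ P, ∃ b ∈ J, x = a * b}) ⊤
            = I) := by
  classical
  let sg : Polynomial L →+* Polynomial L := Polynomial.C.comp (evalHom s0 c hcomm)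
  let act : MulSemiringAction (Multiplicative ℕ) (Polynomial L) := actionOf sg
  have hsmul : ∀ (n : ℕ) (d : Polynomial L), (ofAdd n) • d = (sg^[n]) d :=
    fun n d => actionOf_smul sg n d
  have hsg : ∀ d, sg d = Polynomial.C (evalHom s0 c hcomm d) := fun d => rfl
  have hsgne : ∀ d, d ≠ 0 → sg d ≠ 0 := by
    intro d hd h
    rw [hsg, Polynomial.C_eq_zero] at h
    exact hd (hinj (by rw [h, map_zero]))
  have hitne : ∀ (n : ℕ) (d : Polynomial L), d ≠ 0 → (sg^[n]) d ≠ 0 := by
    intro n
    induction n with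
    | zero => intro d hd; simpa using hd
    | succ n ih => intro d hd; rw [Function.iterate_succ_apply]; exact ih _ (hsgne d hd)
  have hunit : ∀ (n : ℕ) (d : Polynomial L), d ≠ 0 → n ≠ 0 → IsUnit ((ofAdd n) • d) := by
    intro n d hd hn
    rw [hsmul]
    obtain ⟨m, rfl⟩ := Nat.exists_eq_succ_of_ne_zero hn
    rw [Function.iterate_succ_apply', hsg]
    apply IsUnit.map Polynomial.C
    rw [isUnit_iff_ne_zero]
    intro h
    exact hitne m d hd (hinj (by rw [h, map_zero]))
  have : IsPrincipalIdealRing (Polynomial L) := poly_pir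
  have hpir : IsPrincipalIdealRing (SkewPolynomial (Polynomial L)) := isPrincipal hunit
  have hnzd : NoZeroDivisors (SkewPolynomial (Polynomial L)) := by
    apply noZeroDivisors
    intro n d hd
    rw [hsmul] at hd
    by_contra hne
    exact hitne n d hne hd
  have : IsDomain (SkewPolynomial (Polynomial L)) := NoZeroDivisors.to_isDomain _
  -- names
  let S := SkewPolynomial (Polynomial L)
  let x : S := SkewPolynomial.X
  let kp : Polynomial L := Polynomial.X - Polynomial.C c
  let k : S := SkewPolynomial.C kp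
  have hxdef : x = SkewPolynomial.X := rfl
  have hkdef : k = SkewPolynomial.C kp := rfl
  have hkpne : kp ≠ 0 := Polynomial.X_sub_C_ne_zero c
  have hxne : x ≠ 0 := SkewPolynomial.X_ne_zero
  -- unit property
  have hu1 : ∀ d : Polynomial L, d ≠ 0 → ∃ e : Polynomial L, e * sg d = 1 := by
    intro d hd
    have := hunit 1 d hd one_ne_zero
    rw [hsmul] at this
    obtain ⟨u, hu⟩ := this
    exact ⟨↑u⁻¹, by rw [Function.iterate_one] at hu; rw [← hu]; simp⟩
  have hXC : ∀ d : Polynomial L, x * SkewPolynomial.C d = SkewPolynomial.C (sg d) * x := by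
    intro d
    have := X_mul_C d
    rw [hsmul, Function.iterate_one] at this
    exact this
  -- `kp` commutes with the image of `sg`
  have hkcomm : ∀ d : Polynomial L, kp * sg d = sg d * kp := by
    intro d
    rw [hsg]
    have h1 : Commute (evalHom s0 c hcomm d) c := by
      change Commute (Polynomial.eval₂ s0 c d) c
      rw [Polynomial.eval₂_eq_sum]
      apply Commute.sum_left
      intro i _
      exact (hcomm _).mul_left ((Commute.refl c).pow_left i)
    have h2 : Polynomial.C c * Polynomial.C (evalHom s0 c hcomm d) =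
        Polynomial.C (evalHom s0 c hcomm d) * Polynomial.C c := by
      rw [← Polynomial.C_mul, ← Polynomial.C_mul, h1.eq]
    simp only [kp]
    rw [sub_mul, mul_sub, h2, Polynomial.X_mul_C]
  -- x * x ∈ S * (k * x)
  have he' : ∃ s : S, x * x = s * (k * x) := by
    obtain ⟨e, he⟩ := hu1 kp hkpne
    refine ⟨SkewPolynomial.C e * x, ?_⟩
    calc x * x = SkewPolynomial.C (e * sg kp) * (x * x) := by
          rw [he, SkewPolynomial.C_1, one_mul]
      _ = SkewPolynomial.C e * (SkewPolynomial.C (sg kp) * x) * x := by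
          rw [SkewPolynomial.C_mul]; simp only [mul_assoc]
      _ = SkewPolynomial.C e * (x * SkewPolynomial.C kp) * x := by rw [hXC]
      _ = _ := by rw [hkdef]; simp only [mul_assoc]
  -- left ideal generated by k * x is two-sided
  have hb' : ∀ r : S, ∃ s : S, (k * x) * r = s * (k * x) := by
    intro r
    obtain ⟨f, hf⟩ := decomp r
    obtain ⟨f', hf'⟩ := X_mul_comm f
    obtain ⟨s1, hs1⟩ := he'
    refine ⟨SkewPolynomial.C (sg (r.coeff 0)) + k * f' * s1, ?_⟩
    have e1 : (k * x) * SkewPolynomial.C (r.coeff 0) =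
        SkewPolynomial.C (sg (r.coeff 0)) * (k * x) := by
      rw [mul_assoc, hXC, ← mul_assoc, hkdef, ← SkewPolynomial.C_mul, hkcomm,
        SkewPolynomial.C_mul, mul_assoc]
    have e2 : (k * x) * (f * SkewPolynomial.X) = k * f' * s1 * (k * x) := by
      calc (k * x) * (f * SkewPolynomial.X) = k * (SkewPolynomial.X * f) * SkewPolynomial.X := by
            rw [hxdef]; simp only [mul_assoc]
        _ = k * f' * (x * x) := by rw [hf', hxdef]; simp only [mul_assoc]
        _ = _ := by rw [hs1]; simp only [mul_assoc]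
    calc (k * x) * r = (k * x) * (SkewPolynomial.C (r.coeff 0) + f * SkewPolynomial.X) := by
          rw [← hf]
      _ = _ := by rw [mul_add, e1, e2, add_mul]
  have hC0 : ∀ (d : Polynomial L) (i : ℕ), 0 < i →
      (SkewPolynomial.C d : SkewPolynomial (Polynomial L)).coeff i = 0 := by
    intro d i hi
    rw [SkewPolynomial.coeff_C, if_neg (by omega)]
  have hcoeff0 : ∀ (p q : S), (p * q).coeff 0 = p.coeff 0 * q.coeff 0 := by
    intro p q
    rw [coeff_mul']
    simp
  -- x is not in S * (k * x)
  have hc' : ¬ ∃ s : S, x = s * (k * x) := by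
    rintro ⟨s, hs⟩
    have h1 : s * k = 1 := by
      have : (s * k) * x = 1 * x := by rw [one_mul, mul_assoc]; exact hs.symm
      exact mul_right_cancel₀ hxne this
    have h2 : (s * k).coeff 0 = 1 := by rw [h1]; exact SkewPolynomial.coeff_one_zero
    rw [hcoeff0, hkdef, SkewPolynomial.coeff_C_zero] at h2
    have h3 := Polynomial.eval_mul_X_sub_C (p := s.coeff 0) c
    rw [h2] at h3
    simp at h3
  -- right version
  let R := (SkewPolynomial (Polynomial L))ᵐᵒᵖ
  intro hall
  have hpi : ∀ I : AddSubmonoid R, (∀ x r : R, x ∈ I → x * r ∈ I) →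
          ∃ a : R, ∀ x : R, x ∈ I ↔ ∃ r : R, x = a * r := by
    intro I hI
    let J : Ideal (SkewPolynomial (Polynomial L)) :=
      { carrier := {s | MulOpposite.op s ∈ I}
        add_mem' := fun {a b} ha hb => by
          change MulOpposite.op (a + b) ∈ I
          rw [MulOpposite.op_add]; exact I.add_mem ha hb
        zero_mem' := I.zero_mem
        smul_mem' := fun a b hb => by
          change MulOpposite.op (a * b) ∈ I
          rw [MulOpposite.op_mul]
          exact hI _ _ hb }
    obtain ⟨g, hg⟩ := (IsPrincipalIdealRing.principal J).principal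
    refine ⟨MulOpposite.op g, fun y => ?_⟩
    have h1 : y ∈ I ↔ MulOpposite.unop y ∈ J := by
      change y ∈ I ↔ MulOpposite.op (MulOpposite.unop y) ∈ I
      rw [MulOpposite.op_unop]
    rw [h1, hg, Submodule.mem_span_singleton]
    constructor
    · rintro ⟨a, ha⟩
      refine ⟨MulOpposite.op a, ?_⟩
      rw [← MulOpposite.op_mul]
      rw [smul_eq_mul] at ha
      rw [ha, MulOpposite.op_unop]
    · rintro ⟨a, ha⟩
      refine ⟨MulOpposite.unop a, ?_⟩
      rw [ha]; rfl
  have hprime : ∀ a b : R, (∀ r : R, a * r * b = 0) → a = 0 ∨ b = 0 := by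
    intro a b hab
    have := hab 1
    rw [mul_one] at this
    exact mul_eq_zero.1 this
  let xr : R := MulOpposite.op x
  let kr : R := MulOpposite.op k
  -- the ideal I = xr kr R
  let I : AddSubmonoid R :=
    { carrier := {y | ∃ s, y = xr * kr * s}
      add_mem' := by
        rintro a b ⟨s, rfl⟩ ⟨t, rfl⟩
        exact ⟨s + t, by rw [mul_add]⟩
      zero_mem' := ⟨0, by rw [mul_zero]⟩ }
  have hI : ∀ y, y ∈ I ↔ ∃ s, y = xr * kr * s := fun y => Iff.rfl
  have hbr : ∀ r : R, ∃ s, r * (xr * kr) = xr * kr * s := by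
    intro r
    obtain ⟨s, hs⟩ := hb' (MulOpposite.unop r)
    refine ⟨MulOpposite.op s, ?_⟩
    apply MulOpposite.unop_injective
    exact hs
  have hItwo : ∀ x r : R, x ∈ I → r * x ∈ I ∧ x * r ∈ I := by
    rintro y r ⟨s, rfl⟩
    constructor
    · obtain ⟨t, ht⟩ := hbr r
      exact ⟨t * s, by rw [← mul_assoc, ht, mul_assoc]⟩
    · exact ⟨s * r, by rw [mul_assoc]⟩
  have hfin := hall R inferInstance hprime hpi I hItwo
  refine not_product xr kr ?_ ?_ ?_ ?_ ?_ ?_ I hI hfin
  · intro a b hab
    have hxr : xr ≠ 0 := by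
      intro h
      exact hxne (MulOpposite.op_injective (by rw [MulOpposite.op_zero]; exact h))
    exact mul_left_cancel₀ hxr hab
  · intro r
    obtain ⟨q, hq⟩ := X_mul_comm (MulOpposite.unop r)
    exact ⟨MulOpposite.op q, MulOpposite.unop_injective hq⟩
  · rintro ⟨s, hs⟩
    exact hc' ⟨MulOpposite.unop s, congrArg MulOpposite.unop hs⟩
  · intro q hq
    obtain ⟨f, hf⟩ := decomp (MulOpposite.unop q)
    have hq0 : (MulOpposite.unop q).coeff 0 ≠ 0 := by
      intro h0
      apply hq
      refine ⟨MulOpposite.op f, MulOpposite.unop_injective ?_⟩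
      rw [h0, map_zero, zero_add] at hf
      exact hf
    obtain ⟨e, he⟩ := hu1 _ hq0
    refine ⟨MulOpposite.op f, MulOpposite.op (SkewPolynomial.C e), MulOpposite.unop_injective ?_⟩
    have h1 : MulOpposite.unop q - f * x = SkewPolynomial.C ((MulOpposite.unop q).coeff 0) := by
      rw [sub_eq_iff_eq_add]; exact hf
    change x = SkewPolynomial.C e * (x * (MulOpposite.unop q - f * x))
    rw [h1, hXC, ← mul_assoc, ← SkewPolynomial.C_mul, he, SkewPolynomial.C_1, one_mul]
  · obtain ⟨s, hs⟩ := he'
    exact ⟨MulOpposite.op s, MulOpposite.unop_injective hs⟩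
  · obtain ⟨l, hl⟩ := hnc
    refine ⟨MulOpposite.op (SkewPolynomial.C (Polynomial.C l)), ?_⟩
    rintro ⟨s, hs⟩
    have h1 : k * SkewPolynomial.C (Polynomial.C l) = MulOpposite.unop s * k :=
      congrArg MulOpposite.unop hs
    have h2 := congrArg (fun p : S => SkewPolynomial.coeff p 0) h1
    rw [hcoeff0, hcoeff0, hkdef, SkewPolynomial.coeff_C_zero, SkewPolynomial.coeff_C_zero] at h2
    have h3 := Polynomial.eval_mul_X_sub_C (p := (MulOpposite.unop s).coeff 0) c
    rw [← h2] at h3
    apply hl
    simp only [kp] at h3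
    rw [sub_mul, Polynomial.X_mul_C, ← Polynomial.C_mul, Polynomial.eval_sub,
      Polynomial.eval_C_mul, Polynomial.eval_X, Polynomial.eval_C, sub_eq_zero] at h3
    exact h3

end Main

end Pool.Agent.PriRing
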