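import Mathlib
import Pool.Agent.PriRing.Skew
import Pool.Agent.PriRing.Ring

set_option autoImplicit false

/-! A division ring `L` with an endomorphism whose image commutes with a noncentral element. -/

namespace Pool.Agent.PriRing

open Multiplicative nonZeroDivisors

section Step

variable {F : Type} [Field F] (ph sg : F →+* F) (z : F)

theorem division_step (h1 : ∀ a, ph (ph (sg a)) = sg (ph a)) (h2 : ph (ph z) = z)
    (h3 : ph z ≠ z) (h4 : ∀ p : Polynomial F, Polynomial.eval₂ sg z p = 0 → p = 0) :
    ∃ (L : Type) (_ : DivisionRing L) (s0 : L →+* L) (c : L) (hcomm : ∀ l, Commute (s0 l) c),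
      Function.Injective (evalHom s0 c hcomm) ∧ ∃ l : L, l * c ≠ c * l := by
  classical
  let act : MulSemiringAction (Multiplicative ℕ) F := actionOf ph
  have hsmul : ∀ (n : ℕ) (d : F), (ofAdd n) • d = (ph^[n]) d := fun n d => actionOf_smul ph n d
  have hitne : ∀ (n : ℕ) (d : F), d ≠ 0 → (ph^[n]) d ≠ 0 := by
    intro n
    induction n with
    | zero => intro d hd; simpa using hd
    | succ n ih =>
      intro d hd
      rw [Function.iterate_succ_apply]
      exact ih _ ((map_ne_zero ph).2 hd)
  have hpir : IsPrincipalIdealRing (SkewPolynomial F) := by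
    apply isPrincipal
    intro n d hd _
    rw [hsmul, isUnit_iff_ne_zero]
    exact hitne n d hd
  have hnzd : NoZeroDivisors (SkewPolynomial F) := by
    apply noZeroDivisors
    intro n d hd
    rw [hsmul] at hd
    by_contra hne
    exact hitne n d hne hd
  have hdom : IsDomain (SkewPolynomial F) := NoZeroDivisors.to_isDomain _
  obtain ⟨hore⟩ := nonempty_oreSet_of_strongRankCondition (R := SkewPolynomial F)
  -- iterates of `ph` on the image of `sg` and on powers of `z`
  have hphsg : ∀ (n : ℕ) (a : F), (ph^[2 * n]) (sg a) = sg ((ph^[n]) a) := by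
    intro n
    induction n with
    | zero => intro a; rfl
    | succ n ih =>
      intro a
      rw [show 2 * (n + 1) = 2 * n + 1 + 1 by ring, Function.iterate_succ_apply,
        Function.iterate_succ_apply, h1, ih, Function.iterate_succ_apply]
  have hphz : ∀ (n : ℕ), (ph^[2 * n]) z = z := by
    intro n
    induction n with
    | zero => rfl
    | succ n ih =>
      rw [show 2 * (n + 1) = 2 * n + 1 + 1 by ring, Function.iterate_succ_apply,
        Function.iterate_succ_apply, h2, ih]
  -- the endomorphism of the skew polynomial ring
  let A := SkewPolynomial F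
  let X2 : A := SkewPolynomial.monomial 2 1
  have hX2pow : ∀ n : ℕ, X2 ^ n = SkewPolynomial.monomial (2 * n) 1 := by
    intro n
    induction n with
    | zero => rfl
    | succ n ih =>
      rw [pow_succ, ih, SkewPolynomial.monomial_mul_monomial, iterate_map_one, mul_one]
      congr 1
  let sA : A →+* A := SkewMonoidAlgebra.liftNCRingHom
    ((SkewPolynomial.CRingHom (R := F)).comp sg) (powersHom A X2) (by
      intro x y
      rw [powersHom_apply, hX2pow, RingHom.comp_apply, RingHom.comp_apply,
        SkewPolynomial.CRingHom_eq_C, SkewPolynomial.CRingHom_eq_C,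
        SkewPolynomial.C_mul_monomial, SkewPolynomial.monomial_mul_C]
      have hy : y • x = (ph^[toAdd y]) x := by
        have := hsmul (toAdd y) x
        rw [ofAdd_toAdd] at this
        exact this
      rw [hy, mul_one, one_mul, SkewPolynomial.φ_iterate_apply, hsmul, hphsg])
  have hsAmon : ∀ (n : ℕ) (a : F),
      sA (SkewPolynomial.monomial n a) = SkewPolynomial.monomial (2 * n) (sg a) := by
    intro n a
    change SkewMonoidAlgebra.liftNC _ _ (SkewMonoidAlgebra.single (ofAdd n) a) = _
    rw [SkewMonoidAlgebra.liftNC_single, powersHom_apply, toAdd_ofAdd, hX2pow]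
    change SkewPolynomial.C (sg a) * _ = _
    rw [SkewPolynomial.C_mul_monomial, mul_one]
  have hsAcoeff : ∀ (a : A) (j : ℕ), (sA a).coeff (2 * j) = sg (a.coeff j) := by
    intro a j
    induction a using SkewPolynomial.induction with
    | h0 => rw [map_zero, SkewPolynomial.coeff_zero, SkewPolynomial.coeff_zero, map_zero]
    | ha n r q _ _ ih =>
      rw [map_add, SkewPolynomial.coeff_add, SkewPolynomial.coeff_add, map_add, ih, hsAmon,
        SkewPolynomial.coeff_monomial, SkewPolynomial.coeff_monomial]
      congr 1
      by_cases h : n = j
      · subst h; simp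
      · rw [if_neg h, if_neg (by omega), map_zero]
  have hsAinj : ∀ a : A, sA a = 0 → a = 0 := by
    intro a ha
    apply SkewPolynomial.ext
    intro j
    have h := hsAcoeff a j
    rw [ha, SkewPolynomial.coeff_zero] at h
    rw [SkewPolynomial.coeff_zero]
    exact (map_eq_zero sg).1 h.symm
  -- `z` commutes with the image of `sA`
  have hcommA : ∀ a : A, Commute (sA a) (SkewPolynomial.C z) := by
    intro a
    induction a using SkewPolynomial.induction with
    | h0 => rw [map_zero]; exact Commute.zero_left _
    | ha n r q _ _ ih =>
      rw [map_add]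
      refine Commute.add_left ?_ ih
      rw [hsAmon]
      change _ * _ = _ * _
      rw [SkewPolynomial.C_mul_monomial, SkewPolynomial.monomial_mul_C,
        SkewPolynomial.φ_iterate_apply, hsmul, hphz, mul_comm (sg r) z]
  -- the division ring
  let L := OreLocalization A⁰ A
  let io : A →+* L := OreLocalization.numeratorRingHom
  have hioinj : Function.Injective io :=
    OreLocalization.numeratorHom_inj (S := A⁰) inf_le_left
  have hio0 : ∀ a : A, io a = 0 → a = 0 := fun a ha => hioinj (by rw [ha, map_zero])
  have hionz : ∀ a : A, a ≠ 0 → io a ≠ 0 := fun a ha h => ha (hio0 a h)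
  let g : A →+* L := io.comp sA
  have hgnz : ∀ s : A⁰, g s ≠ 0 := by
    intro s h
    have := hsAinj _ (hio0 _ h)
    exact nonZeroDivisors.coe_ne_zero s this
  let gS : A⁰ →* Lˣ :=
    { toFun := fun s => Units.mk0 (g s) (hgnz s)
      map_one' := by ext; simp
      map_mul' := by intro a b; ext; simp }
  have hgS : ∀ s : A⁰, g s = gS s := fun s => rfl
  let s0 : L →+* L := OreLocalization.universalHom g gS hgS
  let c : L := io (SkewPolynomial.C z)
  have hs0io : ∀ a : A, s0 (io a) = io (sA a) :=
    fun a => OreLocalization.universalHom_commutes g gS hgS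
  have hcomm : ∀ l, Commute (s0 l) c := by
    intro l
    induction l using OreLocalization.ind with
    | _ r s =>
      have hval : s0 (r /ₒ s) = ((gS s)⁻¹ : Lˣ) * g r :=
        OreLocalization.universalHom_apply g gS hgS
      rw [hval]
      refine Commute.mul_left ?_ ?_
      · apply Commute.units_inv_left
        change Commute (io (sA s)) (io (SkewPolynomial.C z))
        exact (hcommA s).map io
      · change Commute (io (sA r)) (io (SkewPolynomial.C z))
        exact (hcommA r).map io
  refine ⟨L, inferInstance, s0, c, hcomm, ?_, ?_⟩
  · rw [injective_iff_map_eq_zero]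
    intro p hp
    -- common denominators
    have hden : ∀ p : Polynomial L, ∃ s : A⁰, ∃ q : Polynomial A,
        Polynomial.C (io s) * p = q.map io := by
      intro p
      induction p using Polynomial.induction_on' with
      | add p1 p2 ih1 ih2 =>
        obtain ⟨s1, q1, e1⟩ := ih1
        obtain ⟨s2, q2, e2⟩ := ih2
        -- oreDenom * s1 = oreNum * s2
        have hore' := OreLocalization.ore_eq (s1 : A) s2
        refine ⟨OreLocalization.oreDenom (s1 : A) s2 * s1,
          Polynomial.C ((OreLocalization.oreDenom (s1 : A) s2 : A⁰) : A) * q1 +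
            Polynomial.C (OreLocalization.oreNum (s1 : A) s2) * q2, ?_⟩
        rw [mul_add, Polynomial.map_add, Polynomial.map_mul, Polynomial.map_mul, ← e1, ← e2,
          Polynomial.map_C, Polynomial.map_C, ← mul_assoc, ← mul_assoc, ← Polynomial.C_mul,
          ← Polynomial.C_mul, ← map_mul, ← map_mul, ← hore', Submonoid.coe_mul]
      | monomial n a =>
        induction a using OreLocalization.ind with
        | _ r s =>
          refine ⟨s, Polynomial.monomial n r, ?_⟩
          rw [Polynomial.C_mul_monomial, Polynomial.map_monomial]
          congr 1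
          change ((s : A) /ₒ (1 : A⁰)) * (r /ₒ s) = r /ₒ (1 : A⁰)
          exact OreLocalization.mul_cancel
    obtain ⟨s, q, hq⟩ := hden p
    have hs : io s ≠ 0 := hionz _ (nonZeroDivisors.coe_ne_zero s)
    have hev : evalHom s0 c hcomm (q.map io) = 0 := by
      rw [← hq, map_mul, hp, mul_zero]
    have hev2 : (q.sum fun i a => sA a * SkewPolynomial.C z ^ i) = 0 := by
      apply hio0
      change Polynomial.eval₂ s0 c (q.map io) = 0 at hev
      rw [Polynomial.eval₂_map, Polynomial.eval₂_eq_sum] at hev
      rw [Polynomial.sum_def, map_sum]
      rw [Polynomial.sum_def] at hev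
      rw [← hev]
      apply Finset.sum_congr rfl
      intro i _
      rw [map_mul, map_pow, RingHom.comp_apply, hs0io]
    have hq0 : q = 0 := by
      ext i j
      rw [Polynomial.coeff_zero, SkewPolynomial.coeff_zero]
      let pj : Polynomial F := ∑ i ∈ q.support, Polynomial.monomial i ((q.coeff i).coeff j)
      have hpj : Polynomial.eval₂ sg z pj = 0 := by
        have h := congrArg (fun a : A => SkewPolynomial.coeff a (2 * j)) hev2
        rw [Polynomial.sum_def] at h
        have hcs : ∀ (T : Finset ℕ) (f : ℕ → A) (m : ℕ),
            SkewPolynomial.coeff (∑ i ∈ T, f i) m = ∑ i ∈ T, SkewPolynomial.coeff (f i) m := by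
          intro T f m
          induction T using Finset.induction_on with
          | empty => simp
          | insert a T ha ih =>
            rw [Finset.sum_insert ha, SkewPolynomial.coeff_add, ih, Finset.sum_insert ha]
        have h' : (∑ i ∈ q.support,
            SkewPolynomial.coeff (sA (q.coeff i) * SkewPolynomial.C z ^ i) (2 * j)) = 0 := by
          rw [← hcs]
          exact h
        rw [← h']
        simp only [pj]
        rw [Polynomial.eval₂_finsetSum]
        apply Finset.sum_congr rfl
        intro i _
        rw [Polynomial.eval₂_monomial, ← SkewPolynomial.C_pow]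
        -- coefficient of b * C w
        have hbw : ∀ (b : A) (w : F) (m : ℕ),
            SkewPolynomial.coeff (b * SkewPolynomial.C w) m = b.coeff m * (ph^[m]) w := by
          intro b w m
          have := SkewMonoidAlgebra.coeff_mul_single_one b w (ofAdd m)
          rw [hsmul] at this
          exact this
        rw [hbw, hsAcoeff, iterate_map_pow, hphz]
      have hpj0 := h4 pj hpj
      have hc := congrArg (fun P : Polynomial F => P.coeff i) hpj0
      simp only [pj, Polynomial.finsetSum_coeff, Polynomial.coeff_monomial,
        Polynomial.coeff_zero, Finset.sum_ite_eq', Polynomial.mem_support_iff] at hc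
      by_cases hqi : q.coeff i = 0
      · rw [hqi, SkewPolynomial.coeff_zero]
      · rw [if_pos hqi] at hc
        exact hc
    rw [hq0, Polynomial.map_zero] at hq
    rcases mul_eq_zero.1 hq with h | h
    · rw [Polynomial.C_eq_zero] at h
      exact absurd h hs
    · exact h
  · refine ⟨io SkewPolynomial.X, ?_⟩
    intro h
    have h' : (SkewPolynomial.X : A) * SkewPolynomial.C z =
        SkewPolynomial.C z * SkewPolynomial.X := by
      apply hioinj
      rw [map_mul, map_mul]
      exact h
    rw [X_mul_C, hsmul, Function.iterate_one, SkewPolynomial.C_mul_X_eq_monomial,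
      SkewPolynomial.C_mul_X_eq_monomial] at h'
    exact h3 (SkewPolynomial.monomial_injective 1 h')

end Step

end Pool.Agent.PriRing
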