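import Mathlib

set_option autoImplicit false

/-! The field with its two endomorphisms: odometer and shift on finite binary words. -/

namespace Pool.Agent.PriRing

/-- odometer on finite binary words -/
def inc : List Bool → List Bool
  | [] => []
  | false :: l => true :: l
  | true :: l => false :: inc l

theorem inc_inc (b : Bool) (l : List Bool) : inc (inc (b :: l)) = b :: inc l := by
  cases b <;> rfl

theorem inc_injective : Function.Injective inc := by
  intro a
  induction a with
  | nil =>
    intro b h
    rcases b with _ | ⟨_ | _, b⟩
    · rfl
    · simp [inc] at h
    · simp [inc] at h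
  | cons x a ih =>
    intro b h
    rcases b with _ | ⟨y, b⟩
    · cases x <;> simp [inc] at h
    · cases x <;> cases y <;> simp [inc] at h
      · rw [h]
      · rw [ih h]

theorem cons_injective' : Function.Injective (fun l : List Bool => false :: l) := by
  intro a b h
  simpa using h

/-- polynomial ring -/
abbrev Bas : Type := MvPolynomial (List Bool) ℚ

/-- rational function field -/
abbrev Fld : Type := FractionRing Bas

theorem comp_injective (f : List Bool → List Bool) (hf : Function.Injective f) :
    Function.Injective ((algebraMap Bas Fld).comp (MvPolynomial.rename (R := ℚ) f).toRingHom) :=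
  (IsFractionRing.injective Bas Fld).comp (MvPolynomial.rename_injective f hf)

/-- extension of an injective renaming to the field of fractions -/
noncomputable def ext (f : List Bool → List Bool) (hf : Function.Injective f) : Fld →+* Fld :=
  IsFractionRing.lift (A := Bas) (K := Fld) (comp_injective f hf)

theorem ext_alg (f : List Bool → List Bool) (hf : Function.Injective f) (b : Bas) :
    ext f hf (algebraMap Bas Fld b) = algebraMap Bas Fld (MvPolynomial.rename f b) :=
  IsFractionRing.lift_algebraMap (comp_injective f hf) b

/-- odometer automorphism of the field -/
noncomputable def ph : Fld →+* Fld := ext inc inc_injective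

/-- shift endomorphism of the field -/
noncomputable def sg : Fld →+* Fld := ext (fun l => false :: l) cons_injective'

/-- the special variable -/
noncomputable def zz : Fld := algebraMap Bas Fld (MvPolynomial.X [true])

theorem ph_ph_sg (a : Fld) : ph (ph (sg a)) = sg (ph a) := by
  have : (ph.comp (ph.comp sg)) = sg.comp ph := by
    apply IsFractionRing.ringHom_ext (A := Bas)
    intro b
    simp only [RingHom.comp_apply, ph, sg, ext_alg, MvPolynomial.rename_rename]
    congr 2
  exact RingHom.congr_fun this a

theorem ph_ph_zz : ph (ph zz) = zz := by
  simp only [zz, ph, ext_alg, MvPolynomial.rename_X]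
  rfl

theorem ph_zz : ph zz ≠ zz := by
  simp only [zz, ph, ext_alg, MvPolynomial.rename_X]
  intro h
  have := IsFractionRing.injective Bas Fld h
  rw [MvPolynomial.X_inj] at this
  simp [inc] at this

/-- the injection `Option (List Bool) → List Bool` -/
def opt : Option (List Bool) → List Bool
  | none => [true]
  | some l => false :: l

theorem opt_injective : Function.Injective opt := by
  intro a b h
  rcases a with _ | a <;> rcases b with _ | b
  · rfl
  · simp [opt] at h
  · simp [opt] at h
  · simp [opt] at h; rw [h]

theorem eval_bas (q : Polynomial Bas)
    (h : Polynomial.eval₂ (MvPolynomial.rename (R := ℚ) (fun l : List Bool => false :: l)).toRingHom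
      (MvPolynomial.X [true]) q = 0) : q = 0 := by
  have key : ∀ q : Polynomial Bas,
      MvPolynomial.rename opt ((MvPolynomial.optionEquivLeft ℚ (List Bool)).symm q) =
      Polynomial.eval₂ (MvPolynomial.rename (R := ℚ) (fun l : List Bool => false :: l)).toRingHom
        (MvPolynomial.X [true]) q := by
    intro q
    induction q using Polynomial.induction_on' with
    | add p q hp hq => rw [map_add, map_add, Polynomial.eval₂_add, hp, hq]
    | monomial n a =>
      rw [Polynomial.eval₂_monomial, ← Polynomial.C_mul_X_pow_eq_monomial, map_mul, map_mul,
        map_pow, map_pow, MvPolynomial.optionEquivLeft_symm_X, MvPolynomial.rename_X]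
      congr 1
      induction a using MvPolynomial.induction_on with
      | C r =>
        rw [MvPolynomial.optionEquivLeft_symm_C_C]
        simp
      | add a b ha hb => rw [Polynomial.C_add, map_add, map_add, map_add, ha, hb]
      | mul_X a i ha =>
        rw [Polynomial.C_mul, map_mul, map_mul, map_mul, ha,
          MvPolynomial.optionEquivLeft_symm_C_X]
        simp [opt]
  have h2 := key q
  rw [h] at h2
  have h3 := (map_eq_zero_iff (MvPolynomial.rename opt)
    (MvPolynomial.rename_injective (R := ℚ) opt opt_injective)).1 h2
  simpa using h3

theorem eval_fld (p : Polynomial Fld) (h : Polynomial.eval₂ sg zz p = 0) : p = 0 := by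
  have h1 := IsLocalization.integerNormalization_eval₂_eq_zero (M := nonZeroDivisors Bas) sg p h
  rw [← IsFractionRing.integerNormalization_eq_zero_iff (A := Bas) (K := Fld)]
  apply eval_bas
  apply IsFractionRing.injective Bas Fld
  rw [map_zero, Polynomial.hom_eval₂, ← h1]
  congr 1
  exact RingHom.ext (fun b => (ext_alg _ cons_injective' b).symm)

end Pool.Agent.PriRing
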